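import Pool.Agent.H96.MC.Targets2

/-!
Module GP2 of H96 (MP_5da387_pr): reduced bad windows somewhere in a cube are unlikely.
-/

namespace Pool.Agent.H17.MC

open Classical MeasureTheory ProbabilityTheory Pool.Agent.H96.MC

noncomputable section

variable {d q : ℕ}

lemma GP2_card (c : Cell d) (T : ℕ) : (cube c T).card = (2 * T + 1) ^ d := by
  unfold cube
  rw [Fintype.card_piFinset]
  have : ∀ i, (Finset.Icc (c i - (T : ℤ)) (c i + T)).card = 2 * T + 1 := by
    intro i
    rw [Int.card_Icc]
    omega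
  simp [this]

lemma GP2_bc (l : ℕ) : Measurable (bc l : Cfg d q → Cfg d q) := by
  rw [measurable_pi_iff]
  intro x
  unfold bc
  exact Finset.measurable_sum _ fun z _ => measurable_pi_apply (z, x.2)

lemma GP2_shift (c : Cell d) : Measurable (shift c : Cfg d q → Cfg d q) := by
  rw [measurable_pi_iff]
  intro x
  exact measurable_pi_apply (x.1 + c, x.2)

theorem gp2 (h1 : T_BLK) (h2 : T_SHI) : T_GP2 := by
  intro d q D η e w l A n0 N s T p z hl hp hR
  have sub : {n : Cfg d q | ¬ (∀ c : Cell d, sn (c - bl l z) * l ≤ 2 * A → ∀ i ≤ n0,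
      (∀ b, s i < sn (b - c) → sn (b - c) ≤ T i + N → Typ D η w l n b) →
      ∀ g, Good D.V N (s i) (T i) (red e (s i) (T i) (shift c (bc l n))) g)} ⊆
      ⋃ c ∈ cube (bl l z) (2 * A), ⋃ i ∈ Finset.range (n0 + 1),
        {n : Cfg d q | shift c (bc l n) ∈ RBs D d η N (s i) (T i) e ((l : ℝ) ^ d)} := by
    intro n hn
    simp only [Set.mem_setOf_eq, not_forall] at hn
    obtain ⟨c, hc, i, hi, ht, g, hg⟩ := hn
    simp only [Set.mem_iUnion]
    refine ⟨c, ?_, i, Finset.mem_range.2 (by omega), ?_, ⟨g, hg⟩⟩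
    · rw [mem_cube]
      exact (Nat.le_mul_of_pos_right _ hl).trans hc
    · intro b hb1 hb2
      have h3 : b + c - c = b := add_sub_cancel_right b c
      have := ht (b + c) (by rw [h3]; exact hb1) (by rw [h3]; exact hb2)
      exact this.1
  have each : ∀ c : Cell d, ∀ i ∈ Finset.range (n0 + 1),
      pois D d {n : Cfg d q | shift c (bc l n) ∈ RBs D d η N (s i) (T i) e ((l : ℝ) ^ d)} ≤
        ENNReal.ofReal p := by
    intro c i hi
    rw [Finset.mem_range] at hi
    refine le_trans ?_ (hR i (by omega))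
    have m1 : Measurable (fun n : Cfg d q => shift c (bc l n)) :=
      (GP2_shift c).comp (GP2_bc l)
    have m2 := Measure.le_map_apply (μ := pois D d) m1.aemeasurable
      (RBs D d η N (s i) (T i) e ((l : ℝ) ^ d))
    refine le_trans m2 (le_of_eq ?_)
    have m3 : (pois D d).map (fun n : Cfg d q => shift c (bc l n)) = poisL D d ((l : ℝ) ^ d) := by
      rw [← (h2 d q D c).2 ((l : ℝ) ^ d), ← h1 d q D l hl,
        Measure.map_map (GP2_shift c) (GP2_bc l)]
      rfl
    rw [m3]
  refine (measure_mono sub).trans ?_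
  refine (measure_biUnion_finset_le _ _).trans ?_
  have step : ∀ c ∈ cube (bl l z) (2 * A), pois D d (⋃ i ∈ Finset.range (n0 + 1),
        {n : Cfg d q | shift c (bc l n) ∈ RBs D d η N (s i) (T i) e ((l : ℝ) ^ d)}) ≤
        ((n0 + 1 : ℕ) : ENNReal) * ENNReal.ofReal p := by
    intro c _
    refine (measure_biUnion_finset_le _ _).trans ((Finset.sum_le_sum (each c)).trans ?_)
    rw [Finset.sum_const, Finset.card_range, nsmul_eq_mul]
  refine (Finset.sum_le_sum step).trans ?_
  rw [Finset.sum_const, GP2_card, nsmul_eq_mul, ← ENNReal.ofReal_natCast, ← ENNReal.ofReal_natCast,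
    ← ENNReal.ofReal_mul (by positivity), ← ENNReal.ofReal_mul (by positivity)]
  refine ENNReal.ofReal_le_ofReal (le_of_eq ?_)
  push_cast
  ring

end

end Pool.Agent.H17.MC
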