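import Pool.Agent.H96.MC.Targets4

/-!
Half-open cells (MP_5da387_pr).
-/

namespace Pool.Agent.H17.MC

open Classical MeasureTheory ProbabilityTheory Pool.Agent.H96.MC

noncomputable section

variable {d q : ℕ}

lemma HC_eq (h : ℝ) (v : Cell d) : hcell h v = (WithLp.ofLp : Sp d → Fin d → ℝ) ⁻¹'
    (Set.univ.pi fun l => Set.Ico (h * (v l : ℝ)) (h * ((v l : ℝ) + 1))) := by
  ext x
  simp [hcell]

lemma HC_meas (h : ℝ) (v : Cell d) : MeasurableSet (hcell h v) := by
  rw [HC_eq]
  exact (PiLp.volume_preserving_ofLp (Fin d)).measurable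
    (MeasurableSet.univ_pi fun l => measurableSet_Ico)

lemma HC_vol {h : ℝ} (hh : 0 < h) (v : Cell d) : volume (hcell h v) = ENNReal.ofReal (h ^ d) := by
  rw [HC_eq, (PiLp.volume_preserving_ofLp (Fin d)).measure_preimage
    (MeasurableSet.univ_pi fun l => measurableSet_Ico).nullMeasurableSet, Real.volume_pi_Ico]
  have : ∀ l, ENNReal.ofReal (h * ((v l : ℝ) + 1) - h * (v l : ℝ)) = ENNReal.ofReal h := by
    intro l
    congr 1
    ring
  rw [Finset.prod_congr rfl fun l _ => this l, Finset.prod_const, Finset.card_univ, Fintype.card_fin,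
    ENNReal.ofReal_pow hh.le]

lemma HC_bdd {h : ℝ} (v : Cell d) : Bornology.IsBounded (hcell h v) := by
  rw [HC_eq]
  have h1 : Bornology.IsBounded (Set.univ.pi fun l => Set.Ico (h * (v l : ℝ)) (h * ((v l : ℝ) + 1))) :=
    Bornology.IsBounded.pi fun l => Metric.isBounded_Ico _ _
  have h2 := (PiLp.lipschitzWith_toLp 2 (fun _ : Fin d => ℝ)).isBounded_image h1
  refine h2.subset ?_
  intro x hx
  exact ⟨_, hx, rfl⟩

lemma HC_disj {h : ℝ} (hh : 0 < h) {v v' : Cell d} (hv : v ≠ v') : Disjoint (hcell h v) (hcell h v') := by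
  rw [Set.disjoint_left]
  intro x hx hx'
  apply hv
  funext l
  have h1 := hx l
  have h2 := hx' l
  have h3 : (v l : ℝ) < (v' l : ℝ) + 1 := by
    have := lt_of_le_of_lt h1.1 h2.2
    exact lt_of_mul_lt_mul_left this hh.le
  have h4 : (v' l : ℝ) < (v l : ℝ) + 1 := by
    have := lt_of_le_of_lt h2.1 h1.2
    exact lt_of_mul_lt_mul_left this hh.le
  have h3' : v l < v' l + 1 := by exact_mod_cast h3
  have h4' : v' l < v l + 1 := by exact_mod_cast h4
  omega

end

end Pool.Agent.H17.MC
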