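import Pool.Agent.H17.MC.HC

/-!
Module LLW of H96 (MP_5da387_pr): law of the cell counts.
-/

namespace Pool.Agent.H17.MC

open Classical MeasureTheory ProbabilityTheory Pool.Agent.H96.MC

noncomputable section

variable {d q : ℕ}

lemma LLW_toNat : Measurable ENat.toNat := measurable_of_countable _

theorem llw : T_LLW := by
  intro d q D S h W hd hh
  obtain ⟨p1, p2⟩ := S.poisson
  have hm : ∀ x : CC d q, Measurable fun ω => S.Nc h ω x := fun x =>
    LLW_toNat.comp (p1 x.2 (hcell h x.1) (HC_meas h x.1))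
  refine ⟨measurable_pi_iff.2 fun x => hm x.1, ?_⟩
  obtain ⟨i1, i2⟩ := p2 W.card (fun j => (W.equivFin.symm j).1.2)
    (fun j => hcell h (W.equivFin.symm j).1.1) (fun j => HC_meas h _) (fun j => HC_bdd _) (by
      intro j j' hj
      have h1 : (W.equivFin.symm j).1 ≠ (W.equivFin.symm j').1 := fun h2 =>
        hj (W.equivFin.symm.injective (Subtype.ext h2))
      by_cases h3 : (W.equivFin.symm j).1.2 = (W.equivFin.symm j').1.2
      · right
        exact HC_disj hh fun h4 => h1 (Prod.ext h4 h3)
      · left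
        exact h3)
  have j1 : iIndepFun (fun (j : Fin W.card) ω => S.Nc h ω (W.equivFin.symm j).1) S.P :=
    i1.comp (fun _ => ENat.toNat) (fun _ => LLW_toNat)
  have j2 : iIndepFun (fun (x : W) ω => S.Nc h ω x.1) S.P := by
    have h1 := j1.precomp W.equivFin.injective
    have h2 : (fun (x : W) ω => S.Nc h ω (W.equivFin.symm (W.equivFin x)).1) =
        fun (x : W) ω => S.Nc h ω x.1 := by
      funext x ω
      rw [Equiv.symm_apply_apply]
    rw [← h2]
    exact h1
  have j3 := (iIndepFun_iff_map_fun_eq_pi_map (f := fun (x : W) ω => S.Nc h ω x.1)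
    (fun x => (hm x.1).aemeasurable)).1 j2
  rw [j3]
  congr 1
  funext x
  have h1 := i2 (W.equivFin x)
  simp only [Equiv.symm_apply_apply] at h1
  have h2 : S.P.map (fun ω => S.Nc h ω x.1) =
      (S.P.map (fun ω => (S.Pi x.1.2 ω ∩ hcell h x.1.1).encard)).map ENat.toNat := by
    rw [Measure.map_map LLW_toNat (p1 _ _ (HC_meas h _))]
    rfl
  rw [h2, h1, Measure.map_map LLW_toNat (measurable_of_countable _)]
  have h3 : (ENat.toNat ∘ fun m : ℕ => (m : ℕ∞)) = id := by
    funext m
    simp
  rw [h3, Measure.map_id, HC_vol hh]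
  congr 1
  rw [Real.toNNReal_mul (D.pos _).le]
  rfl

end

end Pool.Agent.H17.MC
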