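import Pool.Agent.H17.MC.HC
import Pool.Agent.H17.MC.GP2
import Pool.Agent.H96.MC.Targets

/-!
Module LO2 of H96 (MP_5da387_pr): the lower bound in dimension at least two.
-/

namespace Pool.Agent.H17.MC

open Classical MeasureTheory ProbabilityTheory Pool.Agent.H96.MC Filter

noncomputable section

variable {d q : ℕ}

/-- the product of Poisson laws charges every nonempty set -/
lemma LO2_pos (h4 : T_PLM) {κ : Type} [Fintype κ] (lam : κ → ℝ) (hlam : ∀ k, 0 < lam k) {L : ℝ}
    (hL : 0 < L) {Z : Set (κ → ℕ)} (hZ : Z.Nonempty) : 0 < PL lam L Z ∧ PL lam L Z ≤ 1 := by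
  have h1 := h4 κ inferInstance lam L Z hlam hL.le
  constructor
  · obtain ⟨w, hw⟩ := hZ
    have h2 : 0 < Measure.pi (fun k => poissonMeasure (lam k * L).toNNReal) {w} := by
      rw [Measure.pi_singleton, CanonicallyOrderedAdd.prod_pos]
      intro k _
      rw [poissonMeasure_singleton]
      have h3 : (0 : ℝ) < ((lam k * L).toNNReal : ℝ) := by
        rw [NNReal.coe_pos, Real.toNNReal_pos]
        exact mul_pos (hlam k) hL
      rw [ENNReal.ofReal_pos]
      positivity
    have h3 : 0 < ENNReal.ofReal (PL lam L Z) := by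
      rw [← h1]
      exact lt_of_lt_of_le h2 (measure_mono (Set.singleton_subset_iff.2 hw))
    exact ENNReal.ofReal_pos.1 h3
  · have h2 : ENNReal.ofReal (PL lam L Z) ≤ 1 := by
      rw [← h1]
      exact prob_le_one
    by_contra h3
    push Not at h3
    have : (1 : ENNReal) < ENNReal.ofReal (PL lam L Z) := by
      rw [← ENNReal.ofReal_one]
      exact (ENNReal.ofReal_lt_ofReal_iff (by linarith)).2 h3
    exact absurd h2 (not_le.2 this)

/-- matched windows are good -/
lemma LO2_good (hd : d ≠ 1) (V : Finset (Fin q → ℕ)) (N s T : ℕ) (n : Cfg d q)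
    (μ : Multiset (Pat d q)) (h1 : ∀ u ∈ μ, Fam V (N : ℝ) u ∧ ∃ x ∈ u.support, x.1 ∈ cube 0 T)
    (h2 : ∀ x, μ.sum x ≤ n x) (h3 : ∀ x : CC d q, x.1 ∈ cube 0 T → μ.sum x = n x) (g : Fin q → ℤ) :
    Good V N s T (ext (fun x : win d q (T + N) => n x.1)) g := by
  have hext : ∀ x : CC d q, x.1 ∈ cube 0 (T + N) →
      ext (fun x : win d q (T + N) => n x.1) x = n x := by
    intro x hx
    unfold ext
    rw [dif_pos (show x ∈ win d q (T + N) from Finset.mem_product.2 ⟨hx, Finset.mem_univ _⟩)]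
  have hout : ∀ x : CC d q, x.1 ∉ cube 0 (T + N) → μ.sum x = 0 := by
    intro x hx
    have : ∀ μ' : Multiset (Pat d q), (∀ u ∈ μ', u x = 0) → μ'.sum x = 0 := by
      intro μ'
      induction μ' using Multiset.induction_on with
      | empty => intro _; simp
      | cons a μ' ih =>
        intro h
        rw [Multiset.sum_cons, Finsupp.add_apply, h a (Multiset.mem_cons_self _ _),
          ih fun u hu => h u (Multiset.mem_cons_of_mem hu)]
    apply this
    intro u hu
    by_contra hne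
    obtain ⟨hF, z, hz, hzX⟩ := h1 u hu
    have h4 := hF.2.2 x (Finsupp.mem_support_iff.2 hne) z hz
    have h5 : (sn (x.1 - z.1) : ℝ) ≤ N := (sn_le_nrm _).trans h4
    have h6 : sn (x.1 - z.1) ≤ N := by exact_mod_cast h5
    rw [mem_cube] at hzX hx
    have h7 := sn_sub_le x.1 z.1 0
    omega
  refine ⟨μ, rst (ext (fun x : win d q (T + N) => n x.1)) (cube 0 (T + N)) - μ.sum,
    fun u hu => (h1 u hu).1, ?_, ?_, fun h => absurd h hd⟩
  · intro x hx
    rw [Finsupp.tsub_apply, rst_apply]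
    have h4 : x.1 ∈ cube 0 T := mem_cube.2 (by rw [sub_zero]; exact hx)
    have h5 : x.1 ∈ cube 0 (T + N) := mem_cube.2 (by rw [sub_zero]; omega)
    rw [if_pos h5, hext x h5, h3 x h4, Nat.sub_self]
  · ext x
    rw [Finsupp.add_apply, Finsupp.tsub_apply, rst_apply]
    split_ifs with h4
    · rw [hext x h4]
      exact Nat.add_sub_cancel' (h2 x)
    · rw [hout x h4]

/-- the probabilistic part -/
lemma LO2_prob (h1 : T_LCE) (h2 : T_LLW) (h3 : T_LTL) (h4 : T_PLM) (hd : 2 ≤ d) (D : Dat q)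
    (S : Scheme D.V D.lam d) (N s T : ℕ) {h r : ℝ} (hh : 0 < h) (hr : r ≤ h * ((N : ℝ) - d)) :
    ENNReal.ofReal (PL (fun x : win d q (T + N) => D.lam x.1.2) (h ^ d) (ZBad d D.V N s T)) ≤
      ENNReal.ofReal ((2 * (T : ℝ) + 1) ^ d * h ^ d) * S.tl r := by
  have e1 : S.P {ω | (fun x : win d q (T + N) => S.Nc h ω x.1) ∈ ZBad d D.V N s T} =
      ENNReal.ofReal (PL (fun x : win d q (T + N) => D.lam x.1.2) (h ^ d) (ZBad d D.V N s T)) := by
    obtain ⟨m1, m2⟩ := h2 d q D S h (win d q (T + N)) (by omega) hh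
    rw [← h4 _ _ (fun x : win d q (T + N) => D.lam x.1.2) (h ^ d) (ZBad d D.V N s T)
      (fun x => D.pos _) (by positivity), ← m2, Measure.map_apply m1 (Set.to_countable _).measurableSet]
    rfl
  rw [← e1]
  have e2 : S.P {ω | (fun x : win d q (T + N) => S.Nc h ω x.1) ∈ ZBad d D.V N s T} ≤
      S.P {ω | ∃ v ∈ cube (0 : Cell d) T, ∃ x ∈ hcell h v, ∃ F ∈ S.M ω, x ∈ F ∧ r < fdiam F} := by
    refine measure_mono_ae ?_
    filter_upwards [h1 d q D S h r N (by omega) hh hr] with ω hω hZ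
    by_contra hc
    have hc' : ∀ v ∈ cube (0 : Cell d) T, ∀ x ∈ hcell h v, ∀ F ∈ S.M ω, x ∈ F → fdiam F ≤ r := by
      intro v hv x hx F hF hxF
      by_contra hlt
      exact hc ⟨v, hv, x, hx, F, hF, hxF, not_le.1 hlt⟩
    obtain ⟨μ, k1, k2, k3⟩ := hω (cube 0 T) hc'
    obtain ⟨g, hg⟩ := hZ
    exact hg (LO2_good (by omega) D.V N s T (S.Nc h ω) μ k1 k2 k3 g)
  refine e2.trans ((h3 d q D S h r (cube 0 T) (by omega) hh).trans (le_of_eq ?_))
  congr 1
  rw [GP2_card, ← ENNReal.ofReal_natCast, ← ENNReal.ofReal_mul (by positivity)]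
  push_cast
  rfl

theorem lo2 (h1 : T_LCE) (h2 : T_LLW) (h3 : T_LTL) (h4 : T_PLM) (h5 : T_SEMI) (h6 : T_LIM) : T_LO2 := by
  intro d hd q D S N s T hA ε hε
  obtain ⟨hN, hNs, hsT, hZ⟩ := hA
  have hlam : ∀ x : win d q (T + N), 0 < (fun x : win d q (T + N) => D.lam x.1.2) x := fun x => D.pos _
  have hlim := h6 (win d q (T + N)) inferInstance (fun x : win d q (T + N) => D.lam x.1.2)
    (ZBad d D.V N s T) hlam (h5 d q D N s T hNs hsT) hZ
  set ρ : ℝ := wrate D d N s T with hρ
  have hρ' : rate (fun x : win d q (T + N) => D.lam x.1.2) (ZBad d D.V N s T) = ρ := rfl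
  rw [hρ'] at hlim
  set p : ℕ → ℝ := fun L => PL (fun x : win d q (T + N) => D.lam x.1.2) (L : ℝ) (ZBad d D.V N s T)
    with hp
  have hpos : ∀ L : ℕ, 1 ≤ L → 0 < p L ∧ p L ≤ 1 := fun L hL =>
    LO2_pos h4 _ hlam (by exact_mod_cast hL) hZ
  have hρ0 : 0 ≤ ρ := by
    refine ge_of_tendsto hlim ?_
    filter_upwards [eventually_ge_atTop 1] with L hL
    have h7 := Real.log_nonpos (hpos L hL).1.le (hpos L hL).2
    exact div_nonneg (neg_nonneg.2 h7) (Nat.cast_nonneg L)
  have hm : (0 : ℝ) < (N : ℝ) - d := by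
    have : (d : ℝ) + 2 ≤ N := by exact_mod_cast hN
    linarith
  set e1 : ℝ := ε * ((N : ℝ) - d) ^ d / 2 with he1
  have he1p : 0 < e1 := by positivity
  have hev : ∀ᶠ L : ℕ in atTop, Real.exp (-(ρ + e1) * L) ≤ p L := by
    have h7 : ∀ᶠ L : ℕ in atTop, -Real.log (p L) / L < ρ + e1 := hlim.eventually_lt_const (by linarith)
    filter_upwards [h7, eventually_ge_atTop 1] with L hL hL1
    have hL0 : (0 : ℝ) < L := by exact_mod_cast hL1
    rw [div_lt_iff₀ hL0] at hL
    rw [← Real.le_log_iff_exp_le (hpos L hL1).1]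
    linarith
  -- the function `x`
  have hx : Tendsto (fun r : ℝ => (r / ((N : ℝ) - d)) ^ d) atTop atTop :=
    (tendsto_pow_atTop (by omega)).comp (tendsto_id.atTop_div_const hm)
  have hL : Tendsto (fun r : ℝ => ⌈(r / ((N : ℝ) - d)) ^ d⌉₊) atTop atTop :=
    tendsto_nat_ceil_atTop.comp hx
  set K : ℝ := (2 * (T : ℝ) + 1) ^ d with hK
  have hKp : 0 < K := by positivity
  have hfin : ∀ᶠ x : ℝ in atTop, K * (x + 1) * Real.exp (ρ + e1) ≤ Real.exp (e1 * x) := by
    have h7 : Tendsto (fun x : ℝ => Real.exp (e1 * x) / (x + 1)) atTop atTop := by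
      have h8 : Tendsto (fun y : ℝ => Real.exp y / y) atTop atTop := by
        simpa using Real.tendsto_exp_div_pow_atTop 1
      have h9 : Tendsto (fun x : ℝ => e1 * (x + 1)) atTop atTop :=
        (tendsto_atTop_add_const_right _ _ tendsto_id).const_mul_atTop he1p
      have h10 := (h8.comp h9).const_mul_atTop (show 0 < e1 * Real.exp (-e1) by positivity)
      refine h10.congr' ?_
      filter_upwards [eventually_gt_atTop 0] with x hx
      simp only [Function.comp]
      have h11 : Real.exp (e1 * (x + 1)) = Real.exp (e1 * x) * Real.exp e1 := by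
        rw [← Real.exp_add]
        congr 1
        ring
      rw [h11, Real.exp_neg]
      have h12 := Real.exp_pos e1
      field_simp
    filter_upwards [h7.eventually_ge_atTop (K * Real.exp (ρ + e1)), eventually_gt_atTop 0] with x h8 h9
    rw [le_div_iff₀ (by linarith)] at h8
    linarith
  filter_upwards [hL.eventually hev, hx.eventually hfin, eventually_gt_atTop 0] with r k1 k2 k3
  set x : ℝ := (r / ((N : ℝ) - d)) ^ d with hxdef
  have hxp : 0 < x := by positivity
  set L : ℕ := ⌈x⌉₊ with hLdef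
  have hL1 : 1 ≤ L := Nat.one_le_iff_ne_zero.2 (Nat.ceil_pos.2 hxp).ne'
  have hL0 : (0 : ℝ) < L := by exact_mod_cast hL1
  have hxL : x ≤ L := Nat.le_ceil x
  have hLx : (L : ℝ) < x + 1 := Nat.ceil_lt_add_one hxp.le
  set h : ℝ := (L : ℝ) ^ ((1 : ℝ) / d) with hh
  have hhp : 0 < h := Real.rpow_pos_of_pos hL0 _
  have hhd : h ^ d = L := by
    rw [hh, ← Real.rpow_natCast, ← Real.rpow_mul hL0.le, one_div, inv_mul_cancel₀, Real.rpow_one]
    have : (2 : ℝ) ≤ d := by exact_mod_cast hd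
    linarith
  have hr : r ≤ h * ((N : ℝ) - d) := by
    rw [← div_le_iff₀ hm]
    refine le_of_pow_le_pow_left₀ (show d ≠ 0 by omega) hhp.le ?_
    rw [hhd]
    exact hxL
  have main := LO2_prob h1 h2 h3 h4 hd D S N s T hhp hr
  rw [hhd] at main
  have k4 : ENNReal.ofReal (Real.exp (-(ρ + e1) * L)) ≤ ENNReal.ofReal (K * L) * S.tl r :=
    (ENNReal.ofReal_le_ofReal k1).trans main
  have k5 : Real.exp (-(ρ / ((N : ℝ) - d) ^ d + ε) * r ^ d) ≤ Real.exp (-(ρ + e1) * L) / (K * L) := by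
    rw [le_div_iff₀ (by positivity)]
    have e2 : -(ρ / ((N : ℝ) - d) ^ d + ε) * r ^ d = -(ρ * x) - 2 * e1 * x := by
      rw [hxdef, he1, div_pow]
      field_simp
      ring
    rw [e2]
    have e3 : Real.exp (-(ρ * x) - (ρ + e1) - e1 * x) ≤ Real.exp (-(ρ + e1) * L) := by
      apply Real.exp_le_exp.2
      nlinarith
    refine le_trans ?_ e3
    have e4 : Real.exp (-(ρ * x) - 2 * e1 * x) * (K * (x + 1) * Real.exp (ρ + e1)) ≤
        Real.exp (-(ρ * x) - 2 * e1 * x) * Real.exp (e1 * x) :=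
      mul_le_mul_of_nonneg_left k2 (Real.exp_pos _).le
    rw [← Real.exp_add] at e4
    have e5 : Real.exp (-(ρ * x) - (ρ + e1) - e1 * x) =
        Real.exp (-(ρ * x) - 2 * e1 * x + e1 * x) * Real.exp (-(ρ + e1)) := by
      rw [← Real.exp_add]
      congr 1
      ring
    rw [e5]
    have e6 : Real.exp (-(ρ * x) - 2 * e1 * x) * (K * L) ≤
        Real.exp (-(ρ * x) - 2 * e1 * x) * (K * (x + 1) * Real.exp (ρ + e1)) * Real.exp (-(ρ + e1)) := by
      have e7 : Real.exp (ρ + e1) * Real.exp (-(ρ + e1)) = 1 := by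
        rw [← Real.exp_add]
        simp
      have e8 : Real.exp (-(ρ * x) - 2 * e1 * x) * (K * (x + 1) * Real.exp (ρ + e1)) *
          Real.exp (-(ρ + e1)) = Real.exp (-(ρ * x) - 2 * e1 * x) * (K * (x + 1)) := by
        linear_combination (Real.exp (-(ρ * x) - 2 * e1 * x) * (K * (x + 1))) * e7
      rw [e8]
      refine mul_le_mul_of_nonneg_left ?_ (Real.exp_pos _).le
      exact mul_le_mul_of_nonneg_left hLx.le hKp.le
    exact e6.trans (mul_le_mul_of_nonneg_right e4 (Real.exp_pos _).le)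
  refine (ENNReal.ofReal_le_ofReal k5).trans ?_
  rw [ENNReal.ofReal_div_of_pos (by positivity)]
  exact ENNReal.div_le_of_le_mul' k4

end

end Pool.Agent.H17.MC
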