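import Pool.Agent.H96.MC.Targets2

/-!
Module LOC of H96 (MP_5da387_pr): locality of the bad events.
-/

namespace Pool.Agent.H17.MC

open Classical MeasureTheory ProbabilityTheory Pool.Agent.H96.MC

noncomputable section

variable {d q : ℕ}

lemma LOC_bc {l : ℕ} (n n' : Cfg d q) (b : Cell d)
    (h : ∀ y ∈ cellsOf l b, ∀ i, n (y, i) = n' (y, i)) (i : Fin q) : bc l n (b, i) = bc l n' (b, i) := by
  unfold bc
  exact Finset.sum_congr rfl fun y hy => h y hy i

lemma LOC_typ (D : Dat q) (η : ℝ) {w l : ℕ} (n n' : Cfg d q) (b : Cell d)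
    (h : ∀ y ∈ cellsOf l b, ∀ i, n (y, i) = n' (y, i)) : Typ D η w l n b ↔ Typ D η w l n' b := by
  unfold Typ
  have h1 : (fun i => bc l n (b, i)) = fun i => bc l n' (b, i) := by
    funext i
    exact LOC_bc n n' b h i
  have h2 : ∀ i, (∑ z ∈ shellOf l w b, n (z, i)) = ∑ z ∈ shellOf l w b, n' (z, i) := by
    intro i
    refine Finset.sum_congr rfl fun y hy => h y ?_ i
    exact (Finset.mem_filter.1 hy).1
  rw [h1]
  simp only [h2]

lemma LOC_rho (η e : ℝ) (N n0 i : ℕ) : n0 * rhoF η e N n0 i ≤ n0 * rhoF η e N n0 (i + 1) := by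
  rcases Nat.eq_zero_or_pos n0 with h | h
  · subst h; simp
  · apply Nat.mul_le_mul_left
    have h1 : rhoF η e N n0 i ≤ n0 * rhoF η e N n0 i := Nat.le_mul_of_pos_left _ h
    have h2 : rhoF η e N n0 (i + 1) = 2 * (n0 * rhoF η e N n0 i + N + t1F η e N + N) + 1 := rfl
    omega

lemma LOC_TF (η e : ℝ) (N n0 : ℕ) {i : ℕ} (hi : i ≤ n0) : TF η e N n0 i ≤ TF η e N n0 n0 := by
  have h : Monotone fun i => n0 * rhoF η e N n0 i := monotone_nat_of_le_succ (LOC_rho η e N n0)
  have := h hi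
  simp only at this
  unfold TF sF
  omega

lemma LOC_Good {V : Finset (Fin q → ℕ)} {N s T : ℕ} {m m' : Cfg d q} {g : Fin q → ℤ}
    (h : rst m (cube 0 (T + N)) = rst m' (cube 0 (T + N))) :
    Good V N s T m g ↔ Good V N s T m' g := by
  unfold Good
  rw [h]

lemma LOC_A {D : Dat q} {η c₁ : ℝ} {E : ℕ} {P : Par} (hP : POK D d η c₁ E P) {k j : ℕ} (h : k ≤ j) :
    P.A k ≤ P.A j := by
  have h1 : Monotone P.A := monotone_nat_of_le_succ (fun j => by have := hP.Amono j; omega)
  exact h1 h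

theorem loc : T_LOC := by
  intro d q D η c₁ E P hP j
  induction j using Nat.strong_induction_on with
  | _ j ih =>
  intro z n n' hn
  have hl := hP.lpos j
  have hlA := hP.lA j
  -- cells of a block near `bl z`
  have key : ∀ b : Cell d, sn (b - bl (P.l j) z) * P.l j + P.l j ≤ 3 * P.A j →
      ∀ y ∈ cellsOf (P.l j) b, ∀ i, n (y, i) = n' (y, i) := by
    intro b hb y hy i
    apply hn
    have h1 : bl (P.l j) y = b := (mem_cellsOf hl).1 hy
    have h2 := sn_le_bl hl y z
    rw [h1, Nat.mul_comm] at h2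
    exact h2.trans hb
  have keyT : ∀ b : Cell d, sn (b - bl (P.l j) z) * P.l j + P.l j ≤ 3 * P.A j →
      (Typ D η (P.w j) (P.l j) n b ↔ Typ D η (P.w j) (P.l j) n' b) := fun b hb =>
    LOC_typ D η n n' b (key b hb)
  rcases Nat.eq_zero_or_pos j with hj | hj
  · subst hj
    rw [FF_zero, FF_zero, keyT]
    rw [sub_self, sn_zero]
    omega
  obtain ⟨j, rfl⟩ : ∃ k, j = k + 1 := ⟨j - 1, by omega⟩
  rw [FF_succ, FF_succ, not_iff_not]
  have hKA := hP.KA (j + 1) hj
  have h64 : ∀ k < j + 1, 64 * P.A k ≤ P.A (j + 1) := by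
    intro k hk
    have h1 := LOC_A hP (show k ≤ j by omega)
    have h2 := hP.Amono j
    omega
  -- first clause
  have c1 : {b : Cell d | sn (b - bl (P.l (j + 1)) z) * P.l (j + 1) ≤ 2 * P.A (j + 1) ∧
      ¬ Typ D η (P.w (j + 1)) (P.l (j + 1)) n b} =
      {b : Cell d | sn (b - bl (P.l (j + 1)) z) * P.l (j + 1) ≤ 2 * P.A (j + 1) ∧
      ¬ Typ D η (P.w (j + 1)) (P.l (j + 1)) n' b} := by
    ext b
    simp only [Set.mem_setOf_eq]
    refine and_congr_right fun hb => ?_
    rw [keyT b (by omega)]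
  -- second clause
  have near : ∀ c : Cell d, sn (c - bl (P.l (j + 1)) z) * P.l (j + 1) ≤ 2 * P.A (j + 1) →
      ∀ i ≤ P.n0 (j + 1), ∀ b : Cell d, sn (b - c) ≤ P.T (j + 1) i + P.N (j + 1) →
      sn (b - bl (P.l (j + 1)) z) * P.l (j + 1) + P.l (j + 1) ≤ 3 * P.A (j + 1) := by
    intro c hc i hi b hb
    have h1 := sn_sub_le b c (bl (P.l (j + 1)) z)
    have h2 : P.T (j + 1) i + P.N (j + 1) ≤ P.K (j + 1) := by
      rw [hP.eT (j + 1) hj i, hP.eK (j + 1) hj]
      have := LOC_TF η (P.e (j + 1)) (P.N (j + 1)) (P.n0 (j + 1)) hi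
      unfold KF
      omega
    have h3 : sn (b - bl (P.l (j + 1)) z) ≤ P.K (j + 1) + sn (c - bl (P.l (j + 1)) z) := by omega
    have h4 := Nat.mul_le_mul_right (P.l (j + 1)) h3
    rw [Nat.add_mul] at h4
    rw [Nat.add_mul] at hKA
    omega
  have c2 : ∀ c : Cell d, sn (c - bl (P.l (j + 1)) z) * P.l (j + 1) ≤ 2 * P.A (j + 1) →
      ∀ i ≤ P.n0 (j + 1),
      (((∀ b, P.s (j + 1) i < sn (b - c) → sn (b - c) ≤ P.T (j + 1) i + P.N (j + 1) →
        Typ D η (P.w (j + 1)) (P.l (j + 1)) n b) →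
      ∀ g, Good D.V (P.N (j + 1)) (P.s (j + 1) i) (P.T (j + 1) i)
        (red (P.e (j + 1)) (P.s (j + 1) i) (P.T (j + 1) i) (shift c (bc (P.l (j + 1)) n))) g) ↔
      ((∀ b, P.s (j + 1) i < sn (b - c) → sn (b - c) ≤ P.T (j + 1) i + P.N (j + 1) →
        Typ D η (P.w (j + 1)) (P.l (j + 1)) n' b) →
      ∀ g, Good D.V (P.N (j + 1)) (P.s (j + 1) i) (P.T (j + 1) i)
        (red (P.e (j + 1)) (P.s (j + 1) i) (P.T (j + 1) i) (shift c (bc (P.l (j + 1)) n'))) g)) := by
    intro c hc i hi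
    refine imp_congr ?_ ?_
    · refine forall_congr' fun b => forall_congr' fun _ => ?_
      constructor
      · intro h hb
        exact (keyT b (near c hc i hi b hb)).1 (h hb)
      · intro h hb
        exact (keyT b (near c hc i hi b hb)).2 (h hb)
    · refine forall_congr' fun g => LOC_Good ?_
      ext x
      rw [rst_apply, rst_apply]
      split_ifs with hx
      · rw [mem_cube, sub_zero] at hx
        have h1 : shift c (bc (P.l (j + 1)) n) x = shift c (bc (P.l (j + 1)) n') x := by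
          unfold shift
          refine LOC_bc n n' _ (key _ (near c hc i hi _ ?_)) _
          rw [add_sub_cancel_right]
          exact hx
        unfold red
        rw [h1]
      · rfl
  unfold GG
  rw [c1]
  refine and_congr Iff.rfl (and_congr ?_ ?_)
  · refine forall_congr' fun c => ?_
    constructor
    · intro h hc i hi
      exact (c2 c hc i hi).1 (h hc i hi)
    · intro h hc i hi
      exact (c2 c hc i hi).2 (h hc i hi)
  · refine forall_congr' fun k => forall_congr' fun _ => forall_congr' fun hk =>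
      forall_congr' fun S => ?_
    have h1 : ∀ x ∈ S, ((sn (x - z) ≤ 2 * P.A (j + 1) ∧ FF D P η n k x) ↔
        (sn (x - z) ≤ 2 * P.A (j + 1) ∧ FF D P η n' k x)) := by
      intro x _
      refine and_congr_right fun hx => ih k hk x n n' fun y hy => hn y ?_
      have h2 := sn_sub_le y.1 x z
      have h3 := h64 k hk
      omega
    have h2 : (∀ x ∈ S, sn (x - z) ≤ 2 * P.A (j + 1) ∧ FF D P η n k x) ↔
        (∀ x ∈ S, sn (x - z) ≤ 2 * P.A (j + 1) ∧ FF D P η n' k x) :=
      forall_congr' fun x => ⟨fun h hx => (h1 x hx).1 (h hx), fun h hx => (h1 x hx).2 (h hx)⟩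
    rw [h2]

end

end Pool.Agent.H17.MC
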