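import Pool.Agent.H96.MC.Targets4
import Pool.Agent.H96.MC.Targets

/-!
Module LOWR of H96 (MP_5da387_pr): the lower bound for every scheme.
-/

namespace Pool.Agent.H17.MC

open Classical MeasureTheory ProbabilityTheory Pool.Agent.H96.MC

noncomputable section

theorem lowr (h1 : T_LO1) (h2 : T_LO2) (h3 : T_ZNE) : T_LOWER := by
  intro d q D hd S ε hε
  have hL : LowSt d := by
    rcases Nat.lt_or_ge d 2 with h | h
    · have : d = 1 := by omega
      subst this
      exact h1
    · exact h2 d h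
  have hne : {a | ∃ N s T, Adm D d N s T ∧ a = wrate D d N s T / ((N : ℝ) - d) ^ d}.Nonempty :=
    ⟨_, d + 2, d + 2, d + 2, ⟨le_rfl, le_rfl, le_rfl, h3 d q D _ _ _⟩, rfl⟩
  have hlt : sInf {a | ∃ N s T, Adm D d N s T ∧ a = wrate D d N s T / ((N : ℝ) - d) ^ d} <
      aconst D d + ε / 2 := by
    have : aconst D d = sInf {a | ∃ N s T, Adm D d N s T ∧ a = wrate D d N s T / ((N : ℝ) - d) ^ d} :=
      rfl
    rw [← this]
    linarith
  obtain ⟨b, ⟨N, s, T, hA, rfl⟩, hb⟩ := exists_lt_of_csInf_lt hne hlt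
  filter_upwards [hL q D S N s T hA (ε / 2) (by linarith), Filter.eventually_ge_atTop 0] with r hr hr0
  refine le_trans (ENNReal.ofReal_le_ofReal (Real.exp_le_exp.2 ?_)) hr
  refine mul_le_mul_of_nonneg_right ?_ (pow_nonneg hr0 d)
  linarith

end

end Pool.Agent.H17.MC
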