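import Pool.Agent.H17.MC.HC

/-!
Module LTL of H96 (MP_5da387_pr): probability of a long family near a finite set of cells.
-/

namespace Pool.Agent.H17.MC

open Classical MeasureTheory ProbabilityTheory Pool.Agent.H96.MC

noncomputable section

variable {d q : ℕ}

theorem ltl (h1 : T_NU) : T_LTL := by
  intro d q D S h r X hd hh
  have each : ∀ v ∈ X, S.P {ω | ∃ x ∈ hcell h v, ∃ F ∈ S.M ω, x ∈ F ∧ r < fdiam F} ≤
      ENNReal.ofReal (h ^ d) * S.tl r := by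
    intro v _
    obtain ⟨m1, m2, -⟩ := h1 d q D S r (hcell h v) hd (HC_meas h v)
    rw [HC_vol hh] at m2
    rw [← m2]
    have m3 := mul_meas_ge_le_lintegral₀ m1 1
    rw [one_mul] at m3
    refine le_trans (measure_mono_ae ?_) m3
    filter_upwards [S.fam] with ω hω hx
    obtain ⟨x, hx, F, hF, hxF, hr⟩ := hx
    have h2 : x ∈ S.far r (hcell h v) ω := ⟨hx, (hω F hF).2.2 x hxF, F, hF, hxF, hr⟩
    have h3 : (1 : ℕ∞) ≤ (S.far r (hcell h v) ω).encard := Set.one_le_encard_iff_nonempty.2 ⟨x, h2⟩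
    show (1 : ENNReal) ≤ (((S.far r (hcell h v) ω).encard : ℕ∞) : ENNReal)
    exact_mod_cast h3
  have sub : {ω | ∃ v ∈ X, ∃ x ∈ hcell h v, ∃ F ∈ S.M ω, x ∈ F ∧ r < fdiam F} ⊆
      ⋃ v ∈ X, {ω | ∃ x ∈ hcell h v, ∃ F ∈ S.M ω, x ∈ F ∧ r < fdiam F} := by
    rintro ω ⟨v, hv, hx⟩
    simp only [Set.mem_iUnion]
    exact ⟨v, hv, hx⟩
  refine (measure_mono sub).trans ((measure_biUnion_finset_le _ _).trans ((Finset.sum_le_sum each).trans ?_))
  rw [Finset.sum_const, nsmul_eq_mul, mul_assoc]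

end

end Pool.Agent.H17.MC
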