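import Pool.Agent.H96.MC.Targets2

/-!
Module REC of H96 (MP_5da387_pr): the recursion for the probabilities of the bad events.
-/

namespace Pool.Agent.H17.MC

open Classical MeasureTheory ProbabilityTheory Pool.Agent.H96.MC

noncomputable section

variable {d q : ℕ}

theorem recmod (h1 : T_LOC) (h2 : T_GP1) (h3 : T_GP2) (h4 : T_GP3) : T_REC := by
  intro d q D η c₁ a cT E P θ β hd hP hR j
  induction j using Nat.strong_induction_on with
  | _ j ih =>
  intro z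
  rcases Nat.eq_zero_or_pos j with hj | hj
  · subst hj
    have e1 : {n : Cfg d q | FF D P η n 0 z} = {n | ¬ Typ D η (P.w 0) (P.l 0) n (bl (P.l 0) z)} := rfl
    rw [e1]
    refine (hR.typ 0 _).trans (ENNReal.ofReal_le_ofReal (Real.exp_le_exp.2 ?_))
    have := hR.zero
    linarith
  obtain ⟨j, rfl⟩ : ∃ k, j = k + 1 := ⟨j - 1, by omega⟩
  have g1 := h2 d q D η (P.w (j + 1)) (P.l (j + 1)) (P.A (j + 1)) (P.n0 (j + 1))
    (Real.exp (-(cT * (P.l (j + 1) : ℝ) ^ d))) z (hP.lpos _) (Real.exp_pos _).le (hR.typ (j + 1))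
  have g2 := h3 d q D η (P.e (j + 1)) (P.w (j + 1)) (P.l (j + 1)) (P.A (j + 1)) (P.n0 (j + 1))
    (P.N (j + 1)) (P.s (j + 1)) (P.T (j + 1)) (Real.exp (-(β (j + 1)))) z (hP.lpos _)
    (Real.exp_pos _).le (hR.rb (j + 1) hj)
  have g3 : ∀ k ∈ Finset.Ico (P.k0 (j + 1)) (j + 1),
      pois D d {n | ¬ (∀ F : Finset (Cell d), (∀ x ∈ F, sn (x - z) ≤ 2 * P.A (j + 1) ∧
        n ∈ {n : Cfg d q | FF D P η n k x}) →
      (∀ x ∈ F, ∀ y ∈ F, x ≠ y → 10 * P.A k ≤ sn (x - y)) → F.card ≤ P.kap (j + 1) k)} ≤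
      ENNReal.ofReal (((4 * (P.A (j + 1) : ℝ) + 1) ^ d * Real.exp (-(θ k))) ^ (P.kap (j + 1) k + 1)) := by
    intro k hk
    rw [Finset.mem_Ico] at hk
    refine h4 d q D (fun x => {n : Cfg d q | FF D P η n k x}) (P.A k) (P.A (j + 1))
      (P.kap (j + 1) k) (Real.exp (-(θ k))) z ?_ (Real.exp_pos _).le ?_ ?_
    · have e1 := hP.lA k
      have e2 := hP.lpos k
      omega
    · intro x n n' hn
      refine h1 d q D η c₁ E P hP k x n n' fun y hy => hn y ?_
      rw [Finset.mem_product]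
      exact ⟨mem_cube.2 hy, Finset.mem_univ _⟩
    · intro x
      exact ih k hk.2 x
  have sub : {n : Cfg d q | FF D P η n (j + 1) z} ⊆
      ({n | ¬ ({b : Cell d | sn (b - bl (P.l (j + 1)) z) * P.l (j + 1) ≤ 2 * P.A (j + 1) ∧
        ¬ Typ D η (P.w (j + 1)) (P.l (j + 1)) n b}.ncard ≤ P.n0 (j + 1))} ∪
      {n | ¬ (∀ c : Cell d, sn (c - bl (P.l (j + 1)) z) * P.l (j + 1) ≤ 2 * P.A (j + 1) →
        ∀ i ≤ P.n0 (j + 1),
        (∀ b, P.s (j + 1) i < sn (b - c) → sn (b - c) ≤ P.T (j + 1) i + P.N (j + 1) →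
          Typ D η (P.w (j + 1)) (P.l (j + 1)) n b) →
        ∀ g, Good D.V (P.N (j + 1)) (P.s (j + 1) i) (P.T (j + 1) i)
          (red (P.e (j + 1)) (P.s (j + 1) i) (P.T (j + 1) i) (shift c (bc (P.l (j + 1)) n))) g)}) ∪
      ⋃ k ∈ Finset.Ico (P.k0 (j + 1)) (j + 1),
        {n | ¬ (∀ F : Finset (Cell d), (∀ x ∈ F, sn (x - z) ≤ 2 * P.A (j + 1) ∧
        n ∈ {n : Cfg d q | FF D P η n k x}) →
      (∀ x ∈ F, ∀ y ∈ F, x ≠ y → 10 * P.A k ≤ sn (x - y)) → F.card ≤ P.kap (j + 1) k)} := by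
    intro n hn
    by_contra hc
    simp only [Set.mem_union, not_or, Set.mem_iUnion, not_exists] at hc
    obtain ⟨⟨k1, k2⟩, k3⟩ := hc
    have hn' : FF D P η n (j + 1) z := hn
    rw [FF_succ] at hn'
    apply hn'
    refine ⟨not_not.1 k1, not_not.1 k2, ?_⟩
    intro k hk0 hkj S hS
    exact (not_not.1 (k3 k (Finset.mem_Ico.2 ⟨hk0, hkj⟩))) S hS
  refine (measure_mono sub).trans ?_
  refine (measure_union_le _ _).trans ?_
  refine (add_le_add (measure_union_le _ _) (measure_biUnion_finset_le _ _)).trans ?_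
  refine (add_le_add (add_le_add g1 g2) (Finset.sum_le_sum g3)).trans ?_
  rw [← ENNReal.ofReal_sum_of_nonneg (fun k _ => by positivity), ← ENNReal.ofReal_add (by positivity)
    (by positivity), ← ENNReal.ofReal_add (by positivity) (Finset.sum_nonneg fun k _ => by positivity)]
  exact ENNReal.ofReal_le_ofReal (hR.num (j + 1) hj)

end

end Pool.Agent.H17.MC
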