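import Pool.Agent.H96.MC.Targets2
import Pool.Agent.H96.MC.Targets

/-!
Module TYP of H96 (MP_5da387_pr): atypical blocks are unlikely.
-/

namespace Pool.Agent.H17.MC

open Classical MeasureTheory ProbabilityTheory Pool.Agent.H96.MC

noncomputable section

variable {d q : ℕ}

/-- the intensities as nonnegative numbers -/
def TYP_lam (D : Dat q) (x : CC d q) : NNReal := ⟨D.lam x.2, (D.pos x.2).le⟩

lemma TYP_sum (h2 : T_PSUM) (D : Dat q) (C : Finset (Cell d)) (i : Fin q) :
    (pois D d).map (fun n => ∑ z ∈ C, n (z, i)) =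
      poissonMeasure ((C.card : ℝ) * D.lam i).toNNReal := by
  set I : Finset (CC d q) := C ×ˢ {i} with hI
  have hpois : pois D d = Measure.infinitePi (fun x : CC d q => poissonMeasure (TYP_lam D x)) := rfl
  have hres : (pois D d).map I.restrict =
      Measure.pi fun x : I => poissonMeasure (TYP_lam D x.1) := by
    rw [hpois]
    exact Measure.infinitePi_map_restrict _
  have hps : (Measure.pi fun x : I => poissonMeasure (TYP_lam D x.1)).map
      (fun w (k' : Unit) => ∑ k, if () = k' then w k else 0) =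
      Measure.pi (fun k' : Unit => poissonMeasure (∑ k : I, if () = k' then TYP_lam D k.1 else 0)) := by
    convert h2 I Unit inferInstance inferInstance (fun x : I => TYP_lam D x.1) (fun _ => ())
  rw [← hres] at hps
  have m1 : Measurable (I.restrict : Cfg d q → (I → ℕ)) := by
    rw [measurable_pi_iff]
    intro x
    exact measurable_pi_apply x.1
  have m2 : Measurable (fun (w : I → ℕ) (k' : Unit) => ∑ k, if () = k' then w k else 0) :=
    measurable_of_countable _
  rw [Measure.map_map m2 m1] at hps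
  have h3 := congrArg (fun ν : Measure (Unit → ℕ) => ν.map (fun w => w ())) hps
  beta_reduce at h3
  rw [Measure.map_map (measurable_pi_apply ()) (m2.comp m1)] at h3
  have h4 : (Measure.pi fun k' : Unit => poissonMeasure
      (∑ k : I, if () = k' then TYP_lam D k.1 else 0)).map
      (fun w => w ()) = poissonMeasure
      (∑ k : I, if () = () then TYP_lam D k.1 else 0) :=
    (measurePreserving_eval (fun k' : Unit => poissonMeasure
      (∑ k : I, if () = k' then TYP_lam D k.1 else 0)) ()).map_eq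
  rw [h4] at h3
  have h5 : ((fun w : Unit → ℕ => w ()) ∘ (fun (w : I → ℕ) (k' : Unit) =>
      ∑ k, if () = k' then w k else 0) ∘ (I.restrict : Cfg d q → (I → ℕ))) =
      fun n => ∑ z ∈ C, n (z, i) := by
    funext n
    simp only [Function.comp, if_true, Finset.restrict_def]
    rw [Finset.sum_coe_sort I (fun x => n x), hI, Finset.sum_product]
    simp
  rw [h5] at h3
  rw [h3]
  congr 1
  have h6 : (∑ k : I, if () = () then TYP_lam D k.1 else 0) = ∑ x ∈ I, TYP_lam D x := by
    simp only [if_true]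
    exact Finset.sum_coe_sort I (fun x => TYP_lam D x)
  rw [h6, hI, Finset.sum_product]
  simp only [Finset.sum_singleton]
  rw [← NNReal.coe_inj, Real.coe_toNNReal _ (mul_nonneg (Nat.cast_nonneg _) (D.pos i).le),
    NNReal.coe_sum]
  have h7 : ∀ z ∈ C, (TYP_lam D ((z, i) : CC d q) : ℝ) = D.lam i := fun z _ => rfl
  rw [Finset.sum_congr rfl h7, Finset.sum_const, nsmul_eq_mul]

lemma TYP_meas (C : Finset (Cell d)) (i : Fin q) :
    Measurable (fun n : Cfg d q => ∑ z ∈ C, n (z, i)) :=
  Finset.measurable_sum _ fun z _ => measurable_pi_apply (z, i)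

/-- deviations of the number of points in a finite set of cells -/
lemma TYP_dev (h1 : T_CHER) (h2 : T_PSUM) (D : Dat q) (C : Finset (Cell d)) (i : Fin q) (δ : ℝ)
    (hδ : 0 < δ) (hδ1 : δ ≤ 1) :
    pois D d {n | δ * ((C.card : ℝ) * D.lam i) <
      |((∑ z ∈ C, n (z, i) : ℕ) : ℝ) - (C.card : ℝ) * D.lam i|} ≤
    ENNReal.ofReal (2 * Real.exp (-(δ ^ 2 / 4) * ((C.card : ℝ) * D.lam i))) := by
  have h3 := h1 ((C.card : ℝ) * D.lam i) δ (by have := D.pos i; positivity) hδ hδ1
  rw [← TYP_sum h2 D C i, Measure.map_apply (TYP_meas C i) (Set.to_countable _).measurableSet] at h3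
  exact h3

/-- cells near a face of a block -/
lemma TYP_face (l w : ℕ) (b : Cell d) (i : Fin d) (a : ℤ) :
    (Fintype.piFinset (fun j => if j = i then Finset.Ico a (a + w) else
      Finset.Ico ((l : ℤ) * b j) ((l : ℤ) * b j + l))).card * l = w * l ^ d := by
  rw [Fintype.card_piFinset, ← Finset.mul_prod_erase _ _ (Finset.mem_univ i)]
  have h1 : ∀ j ∈ Finset.univ.erase i, (if j = i then Finset.Ico a (a + w) else
      Finset.Ico ((l : ℤ) * b j) ((l : ℤ) * b j + l)).card = l := by
    intro j hj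
    rw [if_neg (Finset.ne_of_mem_erase hj), Int.card_Ico]
    omega
  rw [Finset.prod_congr rfl h1, Finset.prod_const, Finset.card_erase_of_mem (Finset.mem_univ i),
    Finset.card_univ, Fintype.card_fin, if_pos rfl, Int.card_Ico]
  have h2 : (a + (w : ℤ) - a).toNat = w := by omega
  rw [h2, mul_assoc, ← pow_succ]
  have h3 : d - 1 + 1 = d := by
    have := i.pos
    omega
  rw [h3]

lemma TYP_shell (l w : ℕ) (b : Cell d) : (shellOf l w b).card * l ≤ 2 * d * (w * l ^ d) := by
  have sub : shellOf l w b ⊆ Finset.univ.biUnion fun i : Fin d =>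
      (Fintype.piFinset (fun j => if j = i then Finset.Ico ((l : ℤ) * b i) ((l : ℤ) * b i + w) else
        Finset.Ico ((l : ℤ) * b j) ((l : ℤ) * b j + l))) ∪
      (Fintype.piFinset (fun j => if j = i then
        Finset.Ico ((l : ℤ) * b i + l - w) ((l : ℤ) * b i + l - w + w) else
        Finset.Ico ((l : ℤ) * b j) ((l : ℤ) * b j + l))) := by
    intro z hz
    unfold shellOf at hz
    rw [Finset.mem_filter] at hz
    obtain ⟨hz, i, hi⟩ := hz
    rw [Finset.mem_biUnion]
    refine ⟨i, Finset.mem_univ _, ?_⟩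
    unfold cellsOf at hz
    rw [Fintype.mem_piFinset] at hz
    rw [Finset.mem_union, Fintype.mem_piFinset, Fintype.mem_piFinset]
    rcases hi with hi | hi
    · left
      intro j
      have hj := hz j
      split_ifs with h
      · subst h
        rw [Finset.mem_Ico] at hj ⊢
        exact ⟨hj.1, hi⟩
      · exact hj
    · right
      intro j
      have hj := hz j
      split_ifs with h
      · subst h
        rw [Finset.mem_Ico] at hj ⊢
        constructor
        · linarith
        · linarith [hj.2]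
      · exact hj
  have h1 : (shellOf l w b).card ≤ ∑ i : Fin d, (
      (Fintype.piFinset (fun j => if j = i then Finset.Ico ((l : ℤ) * b i) ((l : ℤ) * b i + w) else
        Finset.Ico ((l : ℤ) * b j) ((l : ℤ) * b j + l))).card +
      (Fintype.piFinset (fun j => if j = i then
        Finset.Ico ((l : ℤ) * b i + l - w) ((l : ℤ) * b i + l - w + w) else
        Finset.Ico ((l : ℤ) * b j) ((l : ℤ) * b j + l))).card) :=
    (Finset.card_le_card sub).trans (Finset.card_biUnion_le.trans
      (Finset.sum_le_sum fun i _ => Finset.card_union_le _ _))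
  refine (Nat.mul_le_mul_right l h1).trans (le_of_eq ?_)
  rw [Finset.sum_mul]
  have h2 : ∀ i : Fin d, (
      (Fintype.piFinset (fun j => if j = i then Finset.Ico ((l : ℤ) * b i) ((l : ℤ) * b i + w) else
        Finset.Ico ((l : ℤ) * b j) ((l : ℤ) * b j + l))).card +
      (Fintype.piFinset (fun j => if j = i then
        Finset.Ico ((l : ℤ) * b i + l - w) ((l : ℤ) * b i + l - w + w) else
        Finset.Ico ((l : ℤ) * b j) ((l : ℤ) * b j + l))).card) * l = 2 * (w * l ^ d) := by
    intro i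
    rw [add_mul, TYP_face, TYP_face]
    ring
  rw [Finset.sum_congr rfl fun i _ => h2 i, Finset.sum_const, Finset.card_univ, Fintype.card_fin,
    smul_eq_mul]
  ring

theorem typ (h1 : T_CHER) (h2 : T_PSUM) (_h3 : T_SHI) : T_TYP := by
  intro d q D η hd hη hη2
  set Λ : ℝ := 1 + ∑ i, (D.lam i)⁻¹ with hΛ
  have hinv : ∀ i, 0 < (D.lam i)⁻¹ := fun i => inv_pos.2 (D.pos i)
  have hΛ1 : 1 ≤ Λ := by
    have : 0 ≤ ∑ i, (D.lam i)⁻¹ := Finset.sum_nonneg fun i _ => (hinv i).le
    linarith
  have hlam : ∀ i, Λ⁻¹ ≤ D.lam i := by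
    intro i
    have h3 : (D.lam i)⁻¹ ≤ Λ := by
      have : (D.lam i)⁻¹ ≤ ∑ i, (D.lam i)⁻¹ :=
        Finset.single_le_sum (f := fun i => (D.lam i)⁻¹) (fun i _ => (hinv i).le) (Finset.mem_univ i)
      linarith
    exact inv_le_of_inv_le₀ (D.pos i) h3
  have hΛp : 0 < Λ⁻¹ := inv_pos.2 (by linarith)
  have hΛ1' : Λ⁻¹ ≤ 1 := inv_le_one_of_one_le₀ hΛ1
  have hdR : (1 : ℝ) ≤ d := by exact_mod_cast hd
  set cT : ℝ := η ^ 2 / 512 * Λ⁻¹ with hcT
  have hcTp : 0 < cT := by positivity
  refine ⟨η / (64 * d), cT, ⌈4 * q / cT + 48 / η + 2⌉₊, by positivity, ?_, hcTp, ?_, ?_⟩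
  · rw [div_le_iff₀ (by positivity)]
    nlinarith
  · rw [hcT]
    nlinarith
  intro l w hl hw b
  have hl' : 4 * q / cT + 48 / η + 2 ≤ (l : ℝ) := by
    refine (Nat.le_ceil _).trans ?_
    exact_mod_cast hl
  have hq0 : 0 ≤ 4 * (q : ℝ) / cT := by positivity
  have hη0 : 0 ≤ 48 / η := by positivity
  have hl2 : (2 : ℝ) ≤ l := by linarith
  have hl1 : 1 ≤ l := by
    have : (1 : ℝ) ≤ l := by linarith
    exact_mod_cast this
  have hlp : (l : ℝ) ≤ (l : ℝ) ^ d := le_self_pow₀ (by linarith) (by omega)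
  set v : ℝ := (l : ℝ) ^ d with hv
  have hvpos : 0 < v := by linarith
  -- the shell
  have hs : ((shellOf l w b).card : ℝ) ≤ η / 32 * v := by
    have h3 : (((shellOf l w b).card * l : ℕ) : ℝ) ≤ ((2 * d * (w * l ^ d) : ℕ) : ℝ) := by
      exact_mod_cast TYP_shell l w b
    push_cast at h3
    rw [← hv] at h3
    have h4 : 2 * (d : ℝ) * (w * v) ≤ 2 * d * (η / (64 * d) * l * v) :=
      mul_le_mul_of_nonneg_left (mul_le_mul_of_nonneg_right hw hvpos.le) (by positivity)
    have h5 : 2 * (d : ℝ) * (η / (64 * d) * l * v) = η / 32 * v * l := by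
      field_simp
      ring
    rw [h5] at h4
    have h6 : (0 : ℝ) < l := by linarith
    exact le_of_mul_le_mul_right (h3.trans h4) h6
  set m : ℕ := ⌈η / 16 * v⌉₊ with hm
  have hm1 : η / 16 * v ≤ m := Nat.le_ceil _
  have hm2 : (m : ℝ) < η / 16 * v + 1 := Nat.ceil_lt_add_one (by positivity)
  have hsm : (shellOf l w b).card ≤ m := by
    have : ((shellOf l w b).card : ℝ) ≤ m := by nlinarith
    exact_mod_cast this
  have hmc : m ≤ (cellsOf l b).card := by
    rw [card_cellsOf]
    have : (m : ℝ) ≤ ((l ^ d : ℕ) : ℝ) := by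
      push_cast
      rw [← hv]
      nlinarith
    exact_mod_cast this
  obtain ⟨C, hC1, hC2, hC3⟩ := Finset.exists_subsuperset_card_eq
    (show shellOf l w b ⊆ cellsOf l b from Finset.filter_subset _ _) hsm hmc
  have sub : {n : Cfg d q | ¬ Typ D η w l n b} ⊆ ⋃ i ∈ (Finset.univ : Finset (Fin q)),
      ({n : Cfg d q | (η / 4) * (((cellsOf l b).card : ℝ) * D.lam i) <
        |((∑ z ∈ cellsOf l b, n (z, i) : ℕ) : ℝ) - ((cellsOf l b).card : ℝ) * D.lam i|} ∪
      {n : Cfg d q | (1 / 2) * ((C.card : ℝ) * D.lam i) <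
        |((∑ z ∈ C, n (z, i) : ℕ) : ℝ) - (C.card : ℝ) * D.lam i|}) := by
    intro n hn
    have hn' : ¬ Typ D η w l n b := hn
    unfold Typ Fat at hn'
    rw [not_and_or] at hn'
    simp only [Set.mem_iUnion]
    rcases hn' with hn' | hn'
    · push Not at hn'
      obtain ⟨i, hi⟩ := hn'
      refine ⟨i, Finset.mem_univ _, Or.inl ?_⟩
      simp only [Set.mem_setOf_eq]
      rw [card_cellsOf]
      push_cast
      rw [← hv]
      have h5 : (((bc l n (b, i) : ℕ) : ℝ)) = ∑ z ∈ cellsOf l b, (n (z, i) : ℝ) := by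
        unfold bc
        push_cast
        rfl
      rw [h5] at hi
      linarith
    · push Not at hn'
      obtain ⟨i, hi⟩ := hn'
      refine ⟨i, Finset.mem_univ _, Or.inr ?_⟩
      simp only [Set.mem_setOf_eq]
      have h5 : ((∑ z ∈ shellOf l w b, n (z, i) : ℕ) : ℝ) ≤ ((∑ z ∈ C, n (z, i) : ℕ) : ℝ) := by
        exact_mod_cast Finset.sum_le_sum_of_subset hC1
      rw [hC3]
      have hp := D.pos i
      have h6 : (3 / 2 : ℝ) * m ≤ η / 8 * v := by
        have h7 : 48 / η ≤ v := by linarith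
        rw [div_le_iff₀ hη] at h7
        nlinarith
      have h8 : (3 / 2 : ℝ) * (m * D.lam i) ≤ η / 8 * v * D.lam i := by
        have := mul_le_mul_of_nonneg_right h6 hp.le
        linarith
      have h9 : (3 / 2 : ℝ) * (m * D.lam i) < ((∑ z ∈ C, n (z, i) : ℕ) : ℝ) := by linarith
      have h10 := le_abs_self (((∑ z ∈ C, n (z, i) : ℕ) : ℝ) - m * D.lam i)
      linarith
  refine (measure_mono sub).trans ((measure_biUnion_finset_le _ _).trans ?_)
  have each : ∀ i ∈ (Finset.univ : Finset (Fin q)), pois D d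
      ({n : Cfg d q | (η / 4) * (((cellsOf l b).card : ℝ) * D.lam i) <
        |((∑ z ∈ cellsOf l b, n (z, i) : ℕ) : ℝ) - ((cellsOf l b).card : ℝ) * D.lam i|} ∪
      {n : Cfg d q | (1 / 2) * ((C.card : ℝ) * D.lam i) <
        |((∑ z ∈ C, n (z, i) : ℕ) : ℝ) - (C.card : ℝ) * D.lam i|}) ≤
      ENNReal.ofReal (4 * Real.exp (-(2 * cT * v))) := by
    intro i _
    have hp := D.pos i
    have hli := hlam i
    refine (measure_union_le _ _).trans ?_
    have a1 := TYP_dev h1 h2 D (cellsOf l b) i (η / 4) (by linarith) (by linarith)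
    have a2 := TYP_dev h1 h2 D C i (1 / 2) (by norm_num) (by norm_num)
    refine (add_le_add a1 a2).trans ?_
    rw [← ENNReal.ofReal_add (by positivity) (by positivity)]
    refine ENNReal.ofReal_le_ofReal ?_
    have b0 : 2 * cT * v ≤ η ^ 2 / 256 * v * D.lam i := by
      rw [hcT]
      have : η ^ 2 / 256 * v * Λ⁻¹ ≤ η ^ 2 / 256 * v * D.lam i :=
        mul_le_mul_of_nonneg_left hli (by positivity)
      linarith
    have b1 : Real.exp (-((η / 4) ^ 2 / 4) * (((cellsOf l b).card : ℝ) * D.lam i)) ≤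
        Real.exp (-(2 * cT * v)) := by
      apply Real.exp_le_exp.2
      rw [card_cellsOf]
      push_cast
      rw [← hv]
      have : η ^ 2 / 256 * v * D.lam i ≤ (η / 4) ^ 2 / 4 * (v * D.lam i) := by
        have h5 : 0 ≤ η ^ 2 * (v * D.lam i) := by positivity
        nlinarith
      linarith
    have b2 : Real.exp (-((1 / 2 : ℝ) ^ 2 / 4) * ((C.card : ℝ) * D.lam i)) ≤
        Real.exp (-(2 * cT * v)) := by
      apply Real.exp_le_exp.2
      rw [hC3]
      have h5 : η / 16 * v * D.lam i ≤ m * D.lam i := mul_le_mul_of_nonneg_right hm1 hp.le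
      have h6 : η ^ 2 / 256 * v * D.lam i ≤ η / 256 * v * D.lam i := by
        have h7 : η ^ 2 ≤ η := by nlinarith
        have h8 : 0 ≤ v * D.lam i := by positivity
        nlinarith
      nlinarith
    linarith
  refine (Finset.sum_le_sum each).trans ?_
  rw [Finset.sum_const, Finset.card_univ, Fintype.card_fin, nsmul_eq_mul, ← ENNReal.ofReal_natCast,
    ← ENNReal.ofReal_mul (Nat.cast_nonneg q)]
  refine ENNReal.ofReal_le_ofReal ?_
  have c1 : 4 * (q : ℝ) ≤ Real.exp (cT * v) := by
    have c2 : 4 * (q : ℝ) / cT ≤ v := by linarith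
    rw [div_le_iff₀ hcTp] at c2
    have c3 := Real.add_one_le_exp (cT * v)
    linarith
  have c4 : Real.exp (-(2 * cT * v)) = Real.exp (-(cT * v)) * Real.exp (-(cT * v)) := by
    rw [← Real.exp_add]
    congr 1
    ring
  have c5 : Real.exp (cT * v) * Real.exp (-(cT * v)) = 1 := by
    rw [← Real.exp_add]
    simp
  rw [c4]
  have c6 := Real.exp_pos (-(cT * v))
  have c7 : 4 * (q : ℝ) * Real.exp (-(cT * v)) ≤ 1 := by
    rw [← c5]
    exact mul_le_mul_of_nonneg_right c1 c6.le
  calc (q : ℝ) * (4 * (Real.exp (-(cT * v)) * Real.exp (-(cT * v)))) =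
      4 * (q : ℝ) * Real.exp (-(cT * v)) * Real.exp (-(cT * v)) := by ring
    _ ≤ 1 * Real.exp (-(cT * v)) := mul_le_mul_of_nonneg_right c7 c6.le
    _ = Real.exp (-(cT * v)) := one_mul _

end

end Pool.Agent.H17.MC
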